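import Pool.Agent.Lib_helper12.HE.Defs

/-! Project HE (MP_b08f5f_an), block VS: the star bound for the product of the inverse distances. -/

set_option autoImplicit false

namespace Pool.Agent.Lib_helper12.HE

open MeasureTheory Filter Topology Set
open scoped ComplexConjugate ENNReal
open Pool.Agent.Lib_helper25.PV (Conf vel Motion centre inertia NC VFlow)

noncomputable section

/-- the graph of the pairs at distance less than `ρ` -/
def VS_G {N : ℕ} (z : Conf N) (ρ : ℝ) : SimpleGraph (Fin N) where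
  Adj i j := i ≠ j ∧ ‖z i - z j‖ < ρ
  symm := ⟨fun i j h => ⟨h.1.symm, by rw [norm_sub_rev]; exact h.2⟩⟩
  loopless := ⟨fun i h => h.1 rfl⟩

theorem VS_walk {N : ℕ} (z : Conf N) {ρ : ℝ} {i j : Fin N} (p : (VS_G z ρ).Walk i j) :
    ‖z i - z j‖ ≤ p.length * ρ := by
  induction p with
  | nil => simp
  | @cons u v w h p ih =>
    have h1 : ‖z u - z v‖ < ρ := h.2
    have h2 : z u - z w = (z u - z v) + (z v - z w) := by ring
    rw [h2, SimpleGraph.Walk.length_cons]
    push_cast
    calc ‖(z u - z v) + (z v - z w)‖ ≤ ‖z u - z v‖ + ‖z v - z w‖ := norm_add_le _ _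
      _ ≤ ρ + p.length * ρ := add_le_add h1.le ih
      _ = (p.length + 1) * ρ := by ring

theorem VS_reach {N : ℕ} (z : Conf N) {ρ : ℝ} (hρ : 0 < ρ) {i j : Fin N}
    (h : (VS_G z ρ).Reachable i j) : ‖z i - z j‖ < N * ρ := by
  obtain ⟨p, hp⟩ := h.exists_isPath
  have h1 := VS_walk z p
  have h2 : p.length < N := by
    have := hp.length_lt
    rwa [Fintype.card_fin] at this
  have h3 : (p.length : ℝ) < N := by exact_mod_cast h2
  calc ‖z i - z j‖ ≤ p.length * ρ := h1
    _ < N * ρ := mul_lt_mul_of_pos_right h3 hρ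

theorem VS_star {N m : ℕ} (z : Conf N) (hz : Function.Injective z) {M ρ : ℝ}
    (hM : ∀ i j, ‖z i - z j‖ ≤ M) (hρ : 0 < ρ) (hρM : ρ ≤ M)
    (hc : ∀ S : Finset (Fin N), m < S.card → ∃ i ∈ S, ∃ j ∈ S, N * ρ ≤ ‖z i - z j‖) :
    ∃ π : Fin N → Fin N, (∀ j, π (π j) = π j) ∧
      ∏ i, ∏ j ∈ Finset.univ.erase i, (M / ‖z i - z j‖) ≤
        (M / ρ) ^ (N * N) * ∏ j, (if π j = j then 1 else (M / ‖z j - z (π j)‖) ^ m) := by
  classical
  set G := VS_G z ρ with hG
  let q : Fin N → G.ConnectedComponent := G.connectedComponentMk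
  let _ : Fintype G.ConnectedComponent := Fintype.ofFinite _
  have hM0 : 0 < M := hρ.trans_le hρM
  have hMρ : 1 ≤ M / ρ := (one_le_div hρ).mpr hρM
  have hpos : ∀ i j, i ≠ j → 0 < ‖z i - z j‖ := fun i j hij =>
    norm_pos_iff.mpr (sub_ne_zero.mpr fun h => hij (hz h))
  have hone : ∀ i j, i ≠ j → 1 ≤ M / ‖z i - z j‖ := fun i j hij =>
    (one_le_div (hpos i j hij)).mpr (hM i j)
  have hnn : ∀ i j, 0 ≤ M / ‖z i - z j‖ := fun i j => div_nonneg hM0.le (norm_nonneg _)
  set w : Fin N → ℝ := fun i => ∏ j ∈ (Finset.univ.erase i).filter (fun j => q j = q i),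
    (M / ‖z i - z j‖) with hw
  have hw1 : ∀ i, 1 ≤ w i := by
    intro i
    refine Finset.one_le_prod fun j hj => hone i j ?_
    exact (Finset.ne_of_mem_erase (Finset.mem_filter.mp hj).1).symm
  -- the pairs in different classes
  have h1 : ∀ i, ∏ j ∈ Finset.univ.erase i, (M / ‖z i - z j‖) ≤ (M / ρ) ^ N * w i := by
    intro i
    rw [← Finset.prod_filter_mul_prod_filter_not (Finset.univ.erase i) (fun j => q j = q i),
      mul_comm]
    refine mul_le_mul_of_nonneg_right ?_ (zero_le_one.trans (hw1 i))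
    calc ∏ j ∈ (Finset.univ.erase i).filter (fun j => ¬ q j = q i), (M / ‖z i - z j‖)
        ≤ ∏ _j ∈ (Finset.univ.erase i).filter (fun j => ¬ q j = q i), (M / ρ) := by
          refine Finset.prod_le_prod (fun j _ => hnn i j) fun j hj => ?_
          obtain ⟨hj1, hj2⟩ := Finset.mem_filter.mp hj
          have hij : i ≠ j := (Finset.ne_of_mem_erase hj1).symm
          have h2 : ρ ≤ ‖z i - z j‖ := by
            by_contra h3
            apply hj2
            refine SimpleGraph.ConnectedComponent.sound ?_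
            refine (SimpleGraph.Adj.reachable (G := G) ?_).symm
            exact ⟨hij, not_le.mp h3⟩
          exact div_le_div_of_nonneg_left hM0.le hρ h2
      _ = (M / ρ) ^ ((Finset.univ.erase i).filter (fun j => ¬ q j = q i)).card :=
          Finset.prod_const _
      _ ≤ (M / ρ) ^ N := by
          refine pow_le_pow_right₀ hMρ ?_
          refine (Finset.card_le_univ _).trans_eq (Fintype.card_fin N)
  have h2 : ∏ i, ∏ j ∈ Finset.univ.erase i, (M / ‖z i - z j‖) ≤
      (M / ρ) ^ (N * N) * ∏ i, w i := by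
    calc ∏ i, ∏ j ∈ Finset.univ.erase i, (M / ‖z i - z j‖) ≤ ∏ i, ((M / ρ) ^ N * w i) :=
          Finset.prod_le_prod (fun i _ => Finset.prod_nonneg fun j _ => hnn i j) fun i _ => h1 i
      _ = (M / ρ) ^ (N * N) * ∏ i, w i := by
          rw [Finset.prod_mul_distrib, Finset.prod_const, Finset.card_univ, Fintype.card_fin,
            ← pow_mul]
  -- the roots
  have h3 : ∀ c : G.ConnectedComponent, ∃ i, q i = c ∧ ∀ j, q j = c → w j ≤ w i := by
    intro c
    obtain ⟨i0, hi0⟩ := c.exists_rep
    have hne : (Finset.univ.filter fun i => q i = c).Nonempty :=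
      ⟨i0, Finset.mem_filter.mpr ⟨Finset.mem_univ _, hi0⟩⟩
    obtain ⟨i, hi, hmax⟩ := Finset.exists_max_image _ w hne
    exact ⟨i, (Finset.mem_filter.mp hi).2, fun j hj =>
      hmax j (Finset.mem_filter.mpr ⟨Finset.mem_univ _, hj⟩)⟩
  choose root hroot hmax using h3
  refine ⟨fun j => root (q j), fun j => by simp only [hroot], ?_⟩
  refine h2.trans (mul_le_mul_of_nonneg_left ?_ (pow_nonneg (zero_le_one.trans hMρ) _))
  rw [← Finset.prod_fiberwise (s := Finset.univ) (g := q) (f := w),
    ← Finset.prod_fiberwise (s := Finset.univ) (g := q)]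
  refine Finset.prod_le_prod (fun c _ => Finset.prod_nonneg fun i _ =>
    zero_le_one.trans (hw1 i)) fun c _ => ?_
  -- one class
  set S : Finset (Fin N) := Finset.univ.filter fun i => q i = c with hS
  have hcard : S.card ≤ m := by
    by_contra hcon
    obtain ⟨i, hi, j, hj, hij⟩ := hc S (not_le.mp hcon)
    have hi' : q i = c := (Finset.mem_filter.mp hi).2
    have hj' : q j = c := (Finset.mem_filter.mp hj).2
    have hr : G.Reachable i j := SimpleGraph.ConnectedComponent.exact (hi'.trans hj'.symm)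
    exact absurd (VS_reach z hρ hr) (not_lt.mpr hij)
  have hrS : root c ∈ S := Finset.mem_filter.mpr ⟨Finset.mem_univ _, hroot c⟩
  calc ∏ i ∈ S, w i ≤ ∏ _i ∈ S, w (root c) :=
        Finset.prod_le_prod (fun i _ => zero_le_one.trans (hw1 i)) fun i hi =>
          hmax c i (Finset.mem_filter.mp hi).2
    _ = w (root c) ^ S.card := Finset.prod_const _
    _ ≤ w (root c) ^ m := pow_le_pow_right₀ (hw1 _) hcard
    _ = ∏ j ∈ S.erase (root c), (M / ‖z (root c) - z j‖) ^ m := by
        rw [hw]
        simp only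
        rw [← Finset.prod_pow]
        refine Finset.prod_congr ?_ fun _ _ => rfl
        ext j
        simp only [Finset.mem_filter, Finset.mem_erase, Finset.mem_univ, and_true, hroot, hS,
          true_and]
    _ = ∏ j ∈ S, (if root (q j) = j then 1 else (M / ‖z j - z (root (q j))‖) ^ m) := by
        rw [← Finset.mul_prod_erase S _ hrS]
        simp only [hroot, if_true, one_mul]
        refine Finset.prod_congr rfl fun j hj => ?_
        have hj1 : j ≠ root c := Finset.ne_of_mem_erase hj
        have hj2 : q j = c := (Finset.mem_filter.mp (Finset.mem_of_mem_erase hj)).2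
        rw [hj2, if_neg hj1.symm, norm_sub_rev]

end

end Pool.Agent.Lib_helper12.HE
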